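import Pool.Agent.W_MP_420c7c_nt.Structure

set_option autoImplicit false
open Polynomial

namespace Pool.Agent.Attic_h51.MP_420c7c_nt.LargestPrimeFactor

/-- For every sufficiently large `n` satisfying condition (C), every prime factor `p < n` of `n`
satisfies `p ^ 3 < n ^ 2`. -/
theorem result : ∃ N : ℕ, ∀ n : ℕ, N ≤ n →
    (∀ r : ℕ, 1 ≤ r → (r : ℝ) ≤ (Real.logb 2 (n : ℝ)) ^ 2 →
      ((X : (ZMod n)[X]) ^ r - 1) ∣ ((1 + X) ^ n - (1 + X ^ n))) →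
    ∀ p : ℕ, p.Prime → p ∣ n → p < n → p ^ 3 < n ^ 2 :=
  Pool.Agent.W_MP_420c7c_nt.prime_factor_bound

end Pool.Agent.Attic_h51.MP_420c7c_nt.LargestPrimeFactor
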