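import Pool.Agent.W_420c7c_h88.Main

set_option autoImplicit false
open Polynomial

namespace Pool.Agent.Attic_h51.MP_420c7c_nt.TwoPowerModuli

/-- For every sufficiently large `n` satisfying condition (C), every prime factor `p < n` of `n`
with `n ≤ p ^ 5` is `±1` modulo `8`, and `n / p` is `±1` modulo `8` as well. -/
theorem result : ∃ N : ℕ, ∀ n : ℕ, N ≤ n →
    (∀ r : ℕ, 1 ≤ r → (r : ℝ) ≤ (Real.logb 2 (n : ℝ)) ^ 2 →
      ((X : (ZMod n)[X]) ^ r - 1) ∣ ((1 + X) ^ n - (1 + X ^ n))) →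
    ∀ p : ℕ, p.Prime → p ∣ n → p < n → n ≤ p ^ 5 →
      (p % 8 = 1 ∨ p % 8 = 7) ∧ ((n / p) % 8 = 1 ∨ (n / p) % 8 = 7) :=
  Pool.Agent.W_420c7c_h88.main

end Pool.Agent.Attic_h51.MP_420c7c_nt.TwoPowerModuli
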